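import Pool.Agent.Helper68.Res

/-!
# Logarithmic capacity: exact values for balls and quantitative certificates
-/

set_option autoImplicit false

open MeasureTheory Set ENNReal Metric

namespace Pool.Agent.Y688.LC

open Pool.Agent.Helper68.LC

noncomputable section

theorem Lam_zero : Lam 0 = ⊤ := by
  have hmono : ∀ s : ℝ, 0 ≤ s → Lam s ≤ Lam 0 := by
    intro s hs
    unfold Lam
    apply setLIntegral_mono' measurableSet_Ioi
    intro t ht
    have ht' : (0 : ℝ) < t := ht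
    apply ENNReal.ofReal_le_ofReal
    apply div_le_div_of_nonneg_right _ ht'.le
    have : Real.exp (-(t * s)) ≤ Real.exp (-(t * 0)) := by
      apply Real.exp_le_exp.2
      have := mul_nonneg ht'.le hs
      linarith
    linarith
  apply ENNReal.eq_top_of_forall_nnreal_le
  intro r
  have h := hmono (Real.exp (-(r : ℝ))) (Real.exp_pos _).le
  rw [lam_eq (Real.exp_pos _) (Real.exp_le_one_iff.2 (by simp)), Real.log_exp, neg_neg] at h
  simpa using h

theorem Lam_eq_Phi {n : ℕ} {x y : E n} (hx : ‖x‖ ≤ 1) (hy : ‖y‖ ≤ 1) :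
    Lam (‖x - y‖ ^ 2 / 4) = 2 * Phi x y := by
  by_cases hxy : x = y
  · subst hxy
    simp [Phi, Lam_zero]
  · have hd : 0 < ‖x - y‖ := norm_pos_iff.2 (sub_ne_zero.2 hxy)
    have hs := norm_sub_sq_le hx hy
    rw [lam_eq (by positivity) hs]
    simp only [Phi, hxy, if_false]
    rw [two_mul_ofReal]
    congr 1
    rw [Real.log_div (by positivity) (by norm_num), Real.log_pow,
      show (4 : ℝ) = 2 ^ 2 by norm_num, Real.log_pow, dist_eq_norm]
    push_cast
    ring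

theorem energy_sig {n : ℕ} {γ : ℝ} [Nontrivial (E n)]
    (h2 : ∀ x : E n, ‖x‖ = 1 → ∫⁻ y, Lam (‖x - y‖ ^ 2 / 4) ∂(sig (E n)) = ENNReal.ofReal γ)
    (hγ : 0 ≤ γ) :
    logEnergy (sig (E n)) = ((γ / 2 - Real.log 2 : ℝ) : EReal) := by
  have hb : ∀ᵐ x ∂(sig (E n)), ‖x‖ ≤ 1 := ae_sig.mono fun x hx => hx.le
  have hd : ∀ᵐ p ∂((sig (E n)).prod (sig (E n))), dist p.1 p.2 ≤ 2 := by
    have ha : ∀ᵐ p ∂((sig (E n)).prod (sig (E n))), ‖p.1‖ ≤ 1 :=
      Measure.quasiMeasurePreserving_fst.ae hb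
    have hb' : ∀ᵐ p ∂((sig (E n)).prod (sig (E n))), ‖p.2‖ ≤ 1 :=
      Measure.quasiMeasurePreserving_snd.ae hb
    filter_upwards [ha, hb'] with p h1 h2
    rw [dist_eq_norm]
    have := norm_sub_le p.1 p.2
    linarith
  have e1 : LE (sig (E n)) (sig (E n)) = ENNReal.ofReal γ := by
    unfold Pool.Agent.Helper68.LC.LE
    rw [lintegral_congr_ae (ae_sig.mono fun x hx => h2 x hx)]
    simp
  have e2 : LE (sig (E n)) (sig (E n))
      = 2 * ∫⁻ p, Phi p.1 p.2 ∂((sig (E n)).prod (sig (E n))) := by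
    rw [← lintegral_const_mul _ measurable_Phi,
      lintegral_prod _ (measurable_Phi.const_mul _).aemeasurable]
    unfold Pool.Agent.Helper68.LC.LE
    apply lintegral_congr_ae
    filter_upwards [hb] with x hx
    apply lintegral_congr_ae
    filter_upwards [hb] with y hy
    exact Lam_eq_Phi hx hy
  have e3 : ∫⁻ p, Phi p.1 p.2 ∂((sig (E n)).prod (sig (E n))) = ENNReal.ofReal (γ / 2) := by
    rw [e2, show ENNReal.ofReal γ = 2 * ENNReal.ofReal (γ / 2) by
      rw [two_mul_ofReal]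
      congr 1; ring] at e1
    exact (ENNReal.mul_right_inj (by norm_num) (by norm_num)).1 e1
  rw [energy_eq _ hd, e3, EReal.coe_sub, EReal.coe_ennreal_ofReal, max_eq_left (by linarith)]

/-- the exact logarithmic capacity of the closed unit ball. -/
theorem cap_ball {n : ℕ} {γ : ℝ} [Nontrivial (E n)]
    (h1 : ∀ x : E n, ‖x‖ ≤ 1 → ENNReal.ofReal γ ≤ ∫⁻ y, Lam (‖x - y‖ ^ 2 / 4) ∂(sig (E n)))
    (h2 : ∀ x : E n, ‖x‖ = 1 → ∫⁻ y, Lam (‖x - y‖ ^ 2 / 4) ∂(sig (E n)) = ENNReal.ofReal γ)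
    (hγ : 0 ≤ γ) :
    logCap (closedBall (0 : E n) 1) = ENNReal.ofReal (2 * Real.exp (-(γ / 2))) := by
  have hσ : (sig (E n)) (closedBall 0 1)ᶜ = 0 := by
    have h : ∀ᵐ x ∂(sig (E n)), x ∈ closedBall (0 : E n) 1 := by
      filter_upwards [ae_sig (V := E n)] with x hx
      rw [mem_closedBall, dist_zero_right]
      exact hx.le
    rw [ae_iff] at h
    exact h
  have hinf : (⨅ (μ : ProbabilityMeasure (E n))
      (_ : (μ : Measure (E n)) (closedBall (0 : E n) 1)ᶜ = 0), logEnergy (μ : Measure (E n)))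
      = ((γ / 2 - Real.log 2 : ℝ) : EReal) := by
    apply le_antisymm
    · refine (iInf₂_le (⟨sig (E n), inferInstance⟩ : ProbabilityMeasure (E n)) hσ).trans ?_
      exact (energy_sig h2 hγ).le
    · apply le_iInf₂
      intro μ hμ
      exact energy_ball_ge h1 h2 hγ (μ : Measure (E n)) hμ
  unfold logCap
  rw [hinf, ← EReal.coe_neg, EReal.exp_coe]
  congr 1
  rw [neg_sub, sub_eq_add_neg, Real.exp_add, Real.exp_log (by norm_num)]

/-- a measure of small energy bounds the capacity from below. -/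
theorem cap_lower {n : ℕ} {γ : ℝ} (hγ : 0 ≤ γ) {K : Set (E n)}
    (hK : ∀ x ∈ K, ∀ y ∈ K, dist x y ≤ 2) (ν : Measure (E n))
    [IsProbabilityMeasure ν] (hν : ν Kᶜ = 0)
    (hlt : ∫⁻ p, Phi p.1 p.2 ∂(ν.prod ν) < ENNReal.ofReal (γ / 2)) :
    ENNReal.ofReal (2 * Real.exp (-(γ / 2))) < logCap K := by
  have e : ENNReal.ofReal (2 * Real.exp (-(γ / 2)))
      = EReal.exp (-((γ / 2 - Real.log 2 : ℝ) : EReal)) := by
    rw [← EReal.coe_neg, EReal.exp_coe]
    congr 1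
    rw [neg_sub, sub_eq_add_neg, Real.exp_add, Real.exp_log (by norm_num)]
  rw [e]
  unfold logCap
  rw [EReal.exp_lt_exp_iff, EReal.neg_lt_neg_iff]
  have hd : ∀ᵐ p ∂(ν.prod ν), dist p.1 p.2 ≤ 2 := by
    have hb : ∀ᵐ x ∂ν, x ∈ K := by
      rw [ae_iff]; exact hν
    have ha : ∀ᵐ p ∂(ν.prod ν), p.1 ∈ K := Measure.quasiMeasurePreserving_fst.ae hb
    have hb' : ∀ᵐ p ∂(ν.prod ν), p.2 ∈ K := Measure.quasiMeasurePreserving_snd.ae hb
    filter_upwards [ha, hb'] with p h1 h2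
    exact hK _ h1 _ h2
  calc ⨅ (μ : ProbabilityMeasure (E n)) (_ : (μ : Measure (E n)) Kᶜ = 0), logEnergy (μ : Measure (E n))
      ≤ logEnergy ν := iInf₂_le (⟨ν, inferInstance⟩ : ProbabilityMeasure (E n)) hν
    _ < ((γ / 2 - Real.log 2 : ℝ) : EReal) := by
        rw [energy_eq ν hd, EReal.coe_sub]
        have h5 : ((γ / 2 : ℝ) : EReal) = ((ENNReal.ofReal (γ / 2) : ℝ≥0∞) : EReal) := by
          rw [EReal.coe_ennreal_ofReal, max_eq_left (by linarith)]
        rw [h5]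
        apply EReal.sub_lt_sub_of_lt_of_le _ le_rfl
        · simp
        · simp
        · exact_mod_cast hlt

/-- the natural number inequalities of a certificate with `γ = g / 10^4`. -/
def chkN (N Q A S k d g : ℕ) : Bool :=
  decide (0 < d) && decide (0 < Q) && decide (0 < A) &&
  decide (k * 10 ^ 10 + d * S * 10 ^ 4 ≤ d * N ^ 2 * g * 10 ^ 6) &&
  decide ((16 * Q ^ 2) ^ (d * N ^ 2) * (10 ^ 7) ^ k < A ^ d * 27182818 ^ k)

theorem numG {N Q A S k d g : ℕ} (hc : chkN N Q A S k d g = true) :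
    (N : ℝ) ^ 2 * Real.log (16 * (Q : ℝ) ^ 2) + (S : ℝ) / 1000000
      < Real.log A + (N : ℝ) ^ 2 * ((g : ℝ) / 10 ^ 4) := by
  simp only [chkN, Bool.and_eq_true, decide_eq_true_eq] at hc
  obtain ⟨⟨⟨⟨hd, hQ⟩, hA⟩, hk⟩, h⟩ := hc
  have hd' : (0 : ℝ) < d := by exact_mod_cast hd
  have hQ' : (0 : ℝ) < Q := by exact_mod_cast hQ
  have hA' : (0 : ℝ) < A := by exact_mod_cast hA
  have hk' : (k : ℝ) * 10 ^ 10 + d * S * 10 ^ 4 ≤ d * N ^ 2 * g * 10 ^ 6 := by exact_mod_cast hk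
  have hr : ((16 * (Q : ℝ) ^ 2) ^ (d * N ^ 2) * (10 ^ 7) ^ k) < (A : ℝ) ^ d * 27182818 ^ k := by
    exact_mod_cast h
  have hl := Real.log_lt_log (by positivity) hr
  rw [Real.log_mul (by positivity) (by positivity), Real.log_mul (by positivity) (by positivity),
    Real.log_pow (16 * (Q : ℝ) ^ 2) (d * N ^ 2), Real.log_pow ((10 : ℝ) ^ 7) k,
    Real.log_pow (A : ℝ) d, Real.log_pow (27182818 : ℝ) k] at hl
  have he : Real.log 27182818 - Real.log (10 ^ 7) ≤ 1 := by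
    rw [← Real.log_div (by norm_num) (by norm_num), Real.log_le_iff_le_exp (by norm_num)]
    have := Real.exp_one_gt_d9
    norm_num
    linarith
  have hk0 : (0 : ℝ) ≤ k := by positivity
  have h1 := mul_le_mul_of_nonneg_left he hk0
  push_cast at hl
  have h2 : (d : ℝ) * ((N : ℝ) ^ 2 * Real.log (16 * (Q : ℝ) ^ 2))
      < d * Real.log A + k := by
    have e1 : (d : ℝ) * (N : ℝ) ^ 2 * Real.log (16 * (Q : ℝ) ^ 2)
      = (d : ℝ) * ((N : ℝ) ^ 2 * Real.log (16 * (Q : ℝ) ^ 2)) := by ring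
    rw [e1] at hl
    linarith
  have h3 : (k : ℝ) + d * ((S : ℝ) / 1000000) ≤ d * ((N : ℝ) ^ 2 * ((g : ℝ) / 10 ^ 4)) := by
    have e2 : (k : ℝ) + d * ((S : ℝ) / 1000000) = (k * 10 ^ 10 + d * S * 10 ^ 4) / 10 ^ 10 := by
      ring
    have e3 : (d : ℝ) * ((N : ℝ) ^ 2 * ((g : ℝ) / 10 ^ 4)) = (d * N ^ 2 * g * 10 ^ 6) / 10 ^ 10 := by
      ring
    rw [e2, e3]
    gcongr
  have h4 : (d : ℝ) * ((N : ℝ) ^ 2 * Real.log (16 * (Q : ℝ) ^ 2) + (S : ℝ) / 1000000)
      < d * (Real.log A + (N : ℝ) ^ 2 * ((g : ℝ) / 10 ^ 4)) := by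
    linarith
  exact lt_of_mul_lt_mul_left h4 hd'.le

theorem chkN3 : chkN 144 10000 (bigProd add3 dsq3 L3) (bigSum add3 dsq3 L3) 20209 1 9983 = true := by
  decide +kernel

theorem chkN4 : chkN 24 1000 (bigProd add4 dsq4 L4) (bigSum add4 dsq4 L4) 3922 10 8222 = true := by
  decide +kernel

theorem ball_three :
    logCap (closedBall (0 : E 3) 1) = ENNReal.ofReal (2 * Real.exp (-(1 / 2))) :=
  cap_ball (pot3_ge (by simp)) (pot3_eq (by simp)) zero_le_one

theorem ball_four :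
    logCap (closedBall (0 : E 4) 1) = ENNReal.ofReal (Real.exp (1 / 4)) := by
  rw [cap_ball (pot4_ge (by simp)) (pot4_eq (by simp)) c4_nonneg]
  congr 1
  have e : -((2 * Real.log 2 - 1 / 2) / 2) = -Real.log 2 + 1 / 4 := by ring
  rw [e, Real.exp_add, Real.exp_neg, Real.exp_log (by norm_num)]
  ring

theorem exists_three' : ∃ K : Set (E 3), IsCompact K ∧ Metric.diam K = 2 ∧
    ENNReal.ofReal (1.00085 * (2 * Real.exp (-(1 / 2)))) < logCap K := by
  have hn := numG chkN3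
  obtain ⟨K, hK, hd, hK2, ν, hν, hν0, hlt⟩ := cert_main (vec := vec3 10000) (add := add3) (dsq := dsq3)
    (Q := 10000) (vec3_sub 10000) (vec3_add 10000) (by norm_num) L3
    (by intro h; have := len3; rw [h] at this; simp at this)
    (30000, 20000, 20000) (10000, 20000, 20000) (by decide +kernel) chk3a chk3b
    (((9983 : ℕ) : ℝ) / 10 ^ 4) (by rw [len3]; exact hn)
  refine ⟨K, hK, hd, lt_of_le_of_lt ?_ (cap_lower (by positivity) hK2 ν hν0 hlt)⟩
  apply ENNReal.ofReal_le_ofReal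
  have e : -(((9983 : ℕ) : ℝ) / 10 ^ 4 / 2) = 0.00085 + -(1 / 2) := by norm_num
  rw [e, Real.exp_add]
  have h1 := Real.add_one_le_exp (0.00085 : ℝ)
  have h2 := Real.exp_pos (-(1 / 2 : ℝ))
  nlinarith

theorem exists_four' : ∃ K : Set (E 4), IsCompact K ∧ Metric.diam K = 2 ∧
    ENNReal.ofReal (1.0325 * Real.exp (1 / 4)) < logCap K := by
  have hn := numG chkN4
  obtain ⟨K, hK, hd, hK2, ν, hν, hν0, hlt⟩ := cert_main (vec := vec4 1000) (add := add4) (dsq := dsq4)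
    (Q := 1000) (vec4_sub 1000) (vec4_add 1000) (by norm_num) L4
    (by intro h; have := len4; rw [h] at this; simp at this)
    (3000, 2000, 2000, 2000) (1000, 2000, 2000, 2000) (by decide +kernel) chk4a chk4b
    (((8222 : ℕ) : ℝ) / 10 ^ 4) (by rw [len4]; exact hn)
  refine ⟨K, hK, hd, lt_of_le_of_lt ?_ (cap_lower (by positivity) hK2 ν hν0 hlt)⟩
  apply ENNReal.ofReal_le_ofReal
  have e : -(((8222 : ℕ) : ℝ) / 10 ^ 4 / 2) = (-Real.log 2 + 1 / 4) + (Real.log 2 - 0.6611) := by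
    norm_num; ring
  rw [e, Real.exp_add, Real.exp_add, Real.exp_neg, Real.exp_log (by norm_num)]
  have h0 := Real.log_two_gt_d9
  have h1 : (1.0325 : ℝ) ≤ Real.exp (Real.log 2 - 0.6611) := by
    have h2 : Real.exp (0.032047 : ℝ) ≤ Real.exp (Real.log 2 - 0.6611) :=
      Real.exp_le_exp.2 (by linarith)
    have h3 := Real.quadratic_le_exp_of_nonneg (show (0 : ℝ) ≤ 0.032047 by norm_num)
    norm_num at h3 ⊢
    linarith
  have h2 := Real.exp_pos (1 / 4 : ℝ)
  nlinarith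

end

end Pool.Agent.Y688.LC
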